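import Mathlib

set_option autoImplicit false

/-!
# A lower bound for the loss in the `L^4` estimate for quadratic exponential sums with measurable
phase (MP_1e9ba9_an)
-/

namespace Pool.Agent.QLL

open Finset Filter Topology

/-- the approximations of the phase: after step `k` the number `8 ^ j t + 8 ^ (2 j) x`,
`j = j₀ + k`, is an integer -/
noncomputable def th (b : ℝ → ℝ) (j₀ : ℕ) : ℕ → ℝ → ℝ
  | 0 => b
  | k + 1 => fun x => th b j₀ k x +
      ((-((8 : ℝ) ^ (2 * (j₀ + k)) * x) - 8 ^ (j₀ + k) * th b j₀ k x) -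
        round (-((8 : ℝ) ^ (2 * (j₀ + k)) * x) - 8 ^ (j₀ + k) * th b j₀ k x)) / 8 ^ (j₀ + k)

theorem th_int (b : ℝ → ℝ) (j₀ k : ℕ) (x : ℝ) :
    ∃ m : ℤ, (8 : ℝ) ^ (j₀ + k) * th b j₀ (k + 1) x + 8 ^ (2 * (j₀ + k)) * x = m := by
  refine ⟨-round (-((8 : ℝ) ^ (2 * (j₀ + k)) * x) - 8 ^ (j₀ + k) * th b j₀ k x), ?_⟩
  rw [th]
  have h : (8 : ℝ) ^ (j₀ + k) ≠ 0 := by positivity
  push_cast
  field_simp
  ring

theorem th_dist (b : ℝ → ℝ) (j₀ k : ℕ) (x : ℝ) :
    dist (th b j₀ k x) (th b j₀ (k + 1) x) ≤ (1 / (2 * 8 ^ j₀)) * (1 / 8 : ℝ) ^ k := by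
  rw [Real.dist_eq, th]
  have h : (0 : ℝ) < 8 ^ (j₀ + k) := by positivity
  have e : th b j₀ k x - (th b j₀ k x +
      ((-((8 : ℝ) ^ (2 * (j₀ + k)) * x) - 8 ^ (j₀ + k) * th b j₀ k x) -
        round (-((8 : ℝ) ^ (2 * (j₀ + k)) * x) - 8 ^ (j₀ + k) * th b j₀ k x)) / 8 ^ (j₀ + k)) =
      -(((-((8 : ℝ) ^ (2 * (j₀ + k)) * x) - 8 ^ (j₀ + k) * th b j₀ k x) -
        round (-((8 : ℝ) ^ (2 * (j₀ + k)) * x) - 8 ^ (j₀ + k) * th b j₀ k x)) / 8 ^ (j₀ + k)) := by
    ring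
  rw [e, abs_neg, abs_div, abs_of_pos h, div_le_iff₀ h]
  refine (abs_sub_round _).trans ?_
  have e2 : (1 / (2 * 8 ^ j₀)) * (1 / 8 : ℝ) ^ k * 8 ^ (j₀ + k) = 1 / 2 := by
    rw [pow_add, one_div_pow]
    field_simp
  rw [e2]

theorem th_meas (b : ℝ → ℝ) (hb : Measurable b) (j₀ k : ℕ) : Measurable (th b j₀ k) := by
  induction k with
  | zero => exact hb
  | succ k ih =>
    have h1 : Measurable fun x : ℝ =>
        (-((8 : ℝ) ^ (2 * (j₀ + k)) * x) - 8 ^ (j₀ + k) * th b j₀ k x) :=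
      (measurable_id.const_mul _).neg.sub (ih.const_mul _)
    have h2 : Measurable fun x : ℝ =>
        ((round (-((8 : ℝ) ^ (2 * (j₀ + k)) * x) - 8 ^ (j₀ + k) * th b j₀ k x) : ℤ) : ℝ) := by
      have h3 : (fun x : ℝ =>
          ((round (-((8 : ℝ) ^ (2 * (j₀ + k)) * x) - 8 ^ (j₀ + k) * th b j₀ k x) : ℤ) : ℝ)) =
          fun x => ((⌊(-((8 : ℝ) ^ (2 * (j₀ + k)) * x) - 8 ^ (j₀ + k) * th b j₀ k x) + 1 / 2⌋ : ℤ) : ℝ) := by
        funext x
        rw [round_eq]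
      rw [h3]
      exact measurable_from_top.comp (Int.measurable_floor.comp (h1.add_const _))
    exact ih.add ((h1.sub h2).div_const _)

/-- the phase -/
theorem phase (b : ℝ → ℝ) (hb : Measurable b) (j₀ : ℕ) :
    ∃ φ : ℝ → ℝ, Measurable φ ∧ (∀ x, |φ x - b x| ≤ 1 / 8 ^ j₀) ∧
      ∀ x, ∀ j, j₀ ≤ j → ∃ m : ℤ, |(8 : ℝ) ^ j * φ x + 8 ^ (2 * j) * x - m| ≤ 1 / 14 := by
  have hc : ∀ x, CauchySeq fun k => th b j₀ k x := fun x =>
    cauchySeq_of_le_geometric (1 / 8) _ (by norm_num) (th_dist b j₀ · x)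
  choose φ hφ using fun x => cauchySeq_tendsto_of_complete (hc x)
  have hd : ∀ x k, dist (th b j₀ k x) (φ x) ≤ (1 / (2 * 8 ^ j₀)) * (1 / 8 : ℝ) ^ k / (1 - 1 / 8) :=
    fun x k => dist_le_of_le_geometric_of_tendsto (1 / 8) _ (by norm_num) (th_dist b j₀ · x) (hφ x) k
  refine ⟨φ, measurable_of_tendsto_metrizable (th_meas b hb j₀) (tendsto_pi_nhds.2 hφ), ?_, ?_⟩
  · intro x
    have h := hd x 0
    rw [Real.dist_eq, pow_zero, mul_one, abs_sub_comm] at h
    refine h.trans ?_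
    have h8 : (0 : ℝ) < 8 ^ j₀ := by positivity
    rw [div_le_iff₀ (by norm_num), one_div_mul_eq_div, div_le_div_iff₀ (by positivity) h8]
    nlinarith
  · intro x j hj
    obtain ⟨k, rfl⟩ : ∃ k, j = j₀ + k := ⟨j - j₀, by omega⟩
    obtain ⟨m, hm⟩ := th_int b j₀ k x
    refine ⟨m, ?_⟩
    have h := hd x (k + 1)
    rw [Real.dist_eq, abs_sub_comm] at h
    have e : (8 : ℝ) ^ (j₀ + k) * φ x + 8 ^ (2 * (j₀ + k)) * x - m =
        8 ^ (j₀ + k) * (φ x - th b j₀ (k + 1) x) := by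
      rw [← hm]
      ring
    have h8 : (0 : ℝ) < 8 ^ (j₀ + k) := by positivity
    rw [e, abs_mul, abs_of_pos h8]
    calc (8 : ℝ) ^ (j₀ + k) * |φ x - th b j₀ (k + 1) x|
        ≤ 8 ^ (j₀ + k) * ((1 / (2 * 8 ^ j₀)) * (1 / 8 : ℝ) ^ (k + 1) / (1 - 1 / 8)) :=
          mul_le_mul_of_nonneg_left h h8.le
      _ = 1 / 14 := by
          rw [pow_add, one_div_pow, pow_succ]
          field_simp
          norm_num

/-- the exponential sum -/
noncomputable def S (N : ℕ) (a : ℤ → ℂ) (φ : ℝ → ℝ) (x : ℝ) : ℂ :=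
  ∑ n ∈ Icc (-(N : ℤ)) N,
    a n * Complex.exp (2 * Real.pi * Complex.I * (((n : ℝ) * φ x + (n : ℝ) ^ 2 * x : ℝ) : ℂ))

/-- the norm of the coefficients -/
noncomputable def nrm (N : ℕ) (a : ℤ → ℂ) : ℝ := √(∑ n ∈ Icc (-(N : ℤ)) N, ‖a n‖ ^ 2)

theorem re_exp {y : ℝ} {m : ℤ} (h : |y - m| ≤ 1 / 14) :
    1 / 2 ≤ (Complex.exp (2 * Real.pi * Complex.I * (y : ℂ))).re := by
  have e : Complex.exp (2 * Real.pi * Complex.I * (y : ℂ)) =
      Complex.exp (((2 * Real.pi * (y - m) : ℝ) : ℂ) * Complex.I) := by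
    rw [Complex.exp_eq_exp_iff_exists_int]
    refine ⟨m, ?_⟩
    push_cast
    ring
  rw [e, Complex.exp_ofReal_mul_I_re, ← Real.cos_abs, ← Real.cos_pi_div_three]
  apply Real.cos_le_cos_of_nonneg_of_le_pi (abs_nonneg _)
  · linarith [Real.pi_pos]
  · rw [abs_mul, abs_of_pos (by positivity : (0 : ℝ) < 2 * Real.pi)]
    nlinarith [Real.pi_pos]

/-- the coefficients -/
noncomputable def co (j₀ N : ℕ) (n : ℤ) : ℂ :=
  if n ∈ (Icc j₀ (Nat.log 8 N)).image (fun j : ℕ => (8 : ℤ) ^ j) then 1 else 0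

theorem sub_Icc (j₀ N : ℕ) (hN : 1 ≤ N) :
    (Icc j₀ (Nat.log 8 N)).image (fun j : ℕ => (8 : ℤ) ^ j) ⊆ Icc (-(N : ℤ)) N := by
  intro n hn
  rw [mem_image] at hn
  obtain ⟨j, hj, rfl⟩ := hn
  rw [mem_Icc] at hj ⊢
  have h1 : 8 ^ j ≤ N := (Nat.pow_le_pow_right (by norm_num) hj.2).trans
    (Nat.pow_log_le_self 8 (by omega))
  have h2 : (8 : ℤ) ^ j ≤ N := by exact_mod_cast h1
  have h3 : (0 : ℤ) < 8 ^ j := by positivity
  constructor <;> omega

theorem sum_co (j₀ N : ℕ) (hN : 1 ≤ N) (f : ℤ → ℂ) :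
    ∑ n ∈ Icc (-(N : ℤ)) N, co j₀ N n * f n = ∑ j ∈ Icc j₀ (Nat.log 8 N), f ((8 : ℤ) ^ j) := by
  unfold co
  simp only [ite_mul, one_mul, zero_mul]
  rw [sum_ite_mem, inter_eq_right.2 (sub_Icc j₀ N hN), sum_image]
  intro i _ j _ h
  exact Int.pow_right_injective (by norm_num : 1 < Int.natAbs 8) h

theorem nrm_co (j₀ N : ℕ) (hN : 1 ≤ N) : nrm N (co j₀ N) = √((Nat.log 8 N + 1 - j₀ : ℕ) : ℝ) := by
  unfold nrm
  congr 1
  have h := sum_co j₀ N hN (fun _ => 1)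
  rw [sum_const, Nat.card_Icc, nsmul_eq_mul, mul_one] at h
  have h1 : ((∑ n ∈ Icc (-(N : ℤ)) N, ‖co j₀ N n‖ ^ 2 : ℝ) : ℂ) =
      ∑ n ∈ Icc (-(N : ℤ)) N, co j₀ N n * 1 := by
    push_cast
    refine sum_congr rfl fun n _ => ?_
    unfold co
    split_ifs <;> simp
  rw [h] at h1
  exact_mod_cast h1

theorem main (φ₀ : ℝ → ℝ) (hφ₀ : Measurable φ₀) (h01 : ∀ x, φ₀ x ∈ Set.Icc (0 : ℝ) 1) (δ : ℝ)
    (hδ : 0 < δ) : ∃ φ : ℝ → ℝ, Measurable φ ∧ (∀ x, φ x ∈ Set.Icc (0 : ℝ) 1) ∧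
      (∀ x, |φ x - φ₀ x| ≤ δ) ∧ ∃ N₀ : ℕ, ∀ N : ℕ, N₀ ≤ N → ∃ a : ℤ → ℂ,
        (∀ n, a n = 0 ∨ a n = 1) ∧ 0 < nrm N a ∧
        (∀ x, 1 / 5 * √(Real.log N) * nrm N a ≤ ‖S N a φ x‖) ∧
        1 / 5 * √(Real.log N) * nrm N a ≤
          (∫ x in (-1 : ℝ)..1, ‖S N a φ x‖ ^ 4) ^ (1 / 4 : ℝ) := by
  set η : ℝ := min (δ / 2) (1 / 2) with hη
  have hη0 : 0 < η := by positivity
  have hη1 : η ≤ 1 / 2 := min_le_right _ _
  have hη2 : η ≤ δ / 2 := min_le_left _ _
  obtain ⟨j₀, hj₀⟩ := exists_pow_lt_of_lt_one hη0 (show (1 / 8 : ℝ) < 1 by norm_num)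
  rw [one_div_pow] at hj₀
  set b : ℝ → ℝ := fun x => min (max (φ₀ x) η) (1 - η) with hb
  have hbm : Measurable b := (hφ₀.max measurable_const).min measurable_const
  obtain ⟨φ, hφm, hφb, hφ⟩ := phase b hbm j₀
  have hb1 : ∀ x, η ≤ b x ∧ b x ≤ 1 - η ∧ |b x - φ₀ x| ≤ η := by
    intro x
    have h0 := (h01 x).1
    have h1 := (h01 x).2
    simp only [hb]
    refine ⟨le_min (le_max_right _ _) (by linarith), min_le_right _ _, ?_⟩
    rw [abs_le]
    rcases le_total (φ₀ x) η with h | h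
    · rw [max_eq_right h, min_eq_left (by linarith)]
      constructor <;> linarith
    · rw [max_eq_left h]
      rcases le_total (φ₀ x) (1 - η) with h' | h'
      · rw [min_eq_left h']
        constructor <;> linarith
      · rw [min_eq_right h']
        constructor <;> linarith
  refine ⟨φ, hφm, ?_, ?_, 8 ^ (2 * j₀), ?_⟩
  · intro x
    have h1 := hb1 x
    have h2 := abs_le.1 (hφb x)
    constructor <;> linarith
  · intro x
    have h1 := abs_le.1 (hb1 x).2.2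
    have h2 := abs_le.1 (hφb x)
    rw [abs_le]
    constructor <;> linarith
  · intro N hN
    have hN1 : 1 ≤ N := (Nat.one_le_pow _ _ (by norm_num)).trans hN
    set L := Nat.log 8 N with hL
    have hLj : 2 * j₀ ≤ L := Nat.le_log_of_pow_le (by norm_num) hN
    have hlog : Real.log N ≤ (L + 1) * 2.0796 := by
      have h1 : (N : ℝ) ≤ 8 ^ (L + 1) := by
        exact_mod_cast (Nat.lt_pow_succ_log_self (by norm_num : 1 < 8) N).le
      have h2 : Real.log N ≤ Real.log (8 ^ (L + 1)) :=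
        Real.log_le_log (by exact_mod_cast hN1) h1
      rw [Real.log_pow] at h2
      have h3 : Real.log 8 = 3 * Real.log 2 := by
        rw [show (8 : ℝ) = 2 ^ 3 by norm_num, Real.log_pow]
        norm_num
      have h4 := Real.log_two_lt_d9
      have h5 : Real.log 8 ≤ 2.0796 := by rw [h3]; linarith
      refine h2.trans ?_
      push_cast
      exact mul_le_mul_of_nonneg_left h5 (by positivity)
    set k : ℕ := L + 1 - j₀ with hk
    have hk1 : 1 ≤ k := by omega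
    have hkR : (k : ℝ) = L + 1 - j₀ := by
      rw [hk, Nat.cast_sub (by omega)]
      push_cast
      ring
    have hkl : 4 / 25 * Real.log N ≤ k := by
      have h1 : (2 : ℝ) * j₀ ≤ L := by exact_mod_cast hLj
      rw [hkR]
      nlinarith
    have hnrm : nrm N (co j₀ N) = √(k : ℝ) := nrm_co j₀ N hN1
    have hlog0 : 0 ≤ Real.log N := Real.log_nonneg (by exact_mod_cast hN1)
    have hpt : ∀ x, 1 / 5 * √(Real.log N) * nrm N (co j₀ N) ≤ ‖S N (co j₀ N) φ x‖ := by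
      intro x
      have h1 : (k : ℝ) / 2 ≤ (S N (co j₀ N) φ x).re := by
        unfold S
        rw [sum_co j₀ N hN1 (fun n => Complex.exp (2 * Real.pi * Complex.I *
          (((n : ℝ) * φ x + (n : ℝ) ^ 2 * x : ℝ) : ℂ))), Complex.re_sum]
        have h2 : ∀ j ∈ Icc j₀ L, (1 / 2 : ℝ) ≤ (Complex.exp (2 * Real.pi * Complex.I *
            (((((8 : ℤ) ^ j : ℤ) : ℝ) * φ x + (((8 : ℤ) ^ j : ℤ) : ℝ) ^ 2 * x : ℝ) : ℂ))).re := by
          intro j hj
          obtain ⟨m, hm⟩ := hφ x j (mem_Icc.1 hj).1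
          refine re_exp (m := m) ?_
          have e : (((8 : ℤ) ^ j : ℤ) : ℝ) * φ x + (((8 : ℤ) ^ j : ℤ) : ℝ) ^ 2 * x - m =
              (8 : ℝ) ^ j * φ x + 8 ^ (2 * j) * x - m := by
            push_cast
            rw [← pow_mul, mul_comm j 2]
          rw [e]
          exact hm
        have h3 := Finset.card_nsmul_le_sum (Icc j₀ L) _ (1 / 2 : ℝ) h2
        rw [Nat.card_Icc, nsmul_eq_mul] at h3
        refine le_trans (le_of_eq ?_) h3
        rw [hk]
        ring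
      have h4 : (k : ℝ) / 2 ≤ ‖S N (co j₀ N) φ x‖ := h1.trans (Complex.re_le_norm _)
      refine le_trans ?_ h4
      rw [hnrm]
      have h5 : √(Real.log N) ≤ 5 / 2 * √(k : ℝ) := by
        rw [Real.sqrt_le_left (by positivity), mul_pow, Real.sq_sqrt (by positivity)]
        linarith
      have h6 : √(k : ℝ) * √(k : ℝ) = k := Real.mul_self_sqrt (by positivity)
      have h7 : 0 ≤ √(k : ℝ) := Real.sqrt_nonneg _
      nlinarith
    refine ⟨co j₀ N, ?_, ?_, hpt, ?_⟩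
    · intro n
      unfold co
      split_ifs
      · exact Or.inr rfl
      · exact Or.inl rfl
    · rw [hnrm]
      exact Real.sqrt_pos.2 (by exact_mod_cast hk1)
    · set c : ℝ := 1 / 5 * √(Real.log N) * nrm N (co j₀ N) with hc
      have hc0 : 0 ≤ c := by
        have : 0 ≤ nrm N (co j₀ N) := Real.sqrt_nonneg _
        positivity
      have hmeas : Measurable fun x => ‖S N (co j₀ N) φ x‖ ^ 4 := by
        unfold S
        refine Measurable.pow_const (Measurable.norm ?_) 4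
        refine Finset.measurable_sum _ fun n _ => ?_
        refine Measurable.const_mul ?_ _
        refine Complex.measurable_exp.comp ?_
        refine Measurable.const_mul ?_ _
        refine Complex.measurable_ofReal.comp ?_
        exact (hφm.const_mul _).add (measurable_id.const_mul _)
      have hbd : ∀ x, ‖S N (co j₀ N) φ x‖ ^ 4 ≤
          (∑ n ∈ Icc (-(N : ℤ)) N, ‖co j₀ N n‖) ^ 4 := by
        intro x
        refine pow_le_pow_left₀ (norm_nonneg _) ?_ 4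
        unfold S
        refine (norm_sum_le _ _).trans (Finset.sum_le_sum fun n _ => ?_)
        have e : (2 * (Real.pi : ℂ) * Complex.I *
            (((n : ℝ) * φ x + (n : ℝ) ^ 2 * x : ℝ) : ℂ)) =
            ((2 * Real.pi * ((n : ℝ) * φ x + (n : ℝ) ^ 2 * x) : ℝ) : ℂ) * Complex.I := by
          push_cast
          ring
        rw [norm_mul, e, Complex.norm_exp_ofReal_mul_I, mul_one]
      have hint : IntervalIntegrable (fun x => ‖S N (co j₀ N) φ x‖ ^ 4) MeasureTheory.volume (-1) 1 := by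
        rw [intervalIntegrable_iff_integrableOn_Ioc_of_le (by norm_num)]
        refine MeasureTheory.Measure.integrableOn_of_bounded
          (M := (∑ n ∈ Icc (-(N : ℤ)) N, ‖co j₀ N n‖) ^ 4) ?_ hmeas.aestronglyMeasurable ?_
        · simp
        · refine Filter.Eventually.of_forall fun x => ?_
          rw [Real.norm_of_nonneg (by positivity)]
          exact hbd x
      have h1 : c ^ 4 ≤ ∫ x in (-1 : ℝ)..1, ‖S N (co j₀ N) φ x‖ ^ 4 := by
        have h2 : ∫ _x in (-1 : ℝ)..1, c ^ 4 ≤ ∫ x in (-1 : ℝ)..1, ‖S N (co j₀ N) φ x‖ ^ 4 := by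
          refine intervalIntegral.integral_mono_on (by norm_num) (by simp) hint ?_
          intro x _
          exact pow_le_pow_left₀ hc0 (hpt x) 4
        rw [intervalIntegral.integral_const, smul_eq_mul] at h2
        have h3 : 0 ≤ c ^ 4 := by positivity
        linarith
      calc c = (c ^ 4) ^ (1 / 4 : ℝ) := by
            rw [← Real.rpow_natCast, ← Real.rpow_mul hc0]
            norm_num
        _ ≤ _ := Real.rpow_le_rpow (by positivity) h1 (by norm_num)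

end Pool.Agent.QLL
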